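import Mathlib

/-!
# Solutions of `g_{k+r}(n) = 2 g_k(n)` for `g(n) = n + φ(n)` and `r ≠ 2`

There is none with `r = 1`; for `r ≥ 3` the orbit passes, once in each period, through a number
`2 ^ l * q ^ j` with `q ≡ 7 mod 8` prime, and some iterate has at least about `(25 / 32) (r - 1) ^ 2`
distinct prime factors.
-/

namespace Pool.Agent.Results.MP_78a9e2_nt.PrimePowerCycles

/-- `g(n) = n + φ(n)`. -/
def g (n : ℕ) : ℕ := n + Nat.totient n

/-- `(n, r)` is a solution: `g_{k+r}(n) = 2 g_k(n)` for all large `k`. -/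
def Solution (n r : ℕ) : Prop := ∃ K : ℕ, ∀ k, K ≤ k → g^[k + r] n = 2 * g^[k] n

/-! ### Elementary facts on the orbit -/

lemma g_gt {n : ℕ} (hn : 0 < n) : n < g n := by
  have := Nat.totient_pos.mpr hn
  unfold g
  omega

lemma orbit_ge {n : ℕ} (hn : 0 < n) (k : ℕ) : n + k ≤ g^[k] n := by
  induction k with
  | zero => simp
  | succ k ih =>
    rw [Function.iterate_succ_apply']
    have := g_gt (n := g^[k] n) (by omega)
    omega

lemma orbit_succ (n k : ℕ) : g^[k + 1] n = g (g^[k] n) := Function.iterate_succ_apply' g k n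

lemma orbit_strict {n : ℕ} (hn : 0 < n) : StrictMono fun k => g^[k] n := by
  apply strictMono_nat_of_lt_succ
  intro k
  rw [orbit_succ]
  exact g_gt (by have := orbit_ge hn k; omega)

lemma g_parity {m : ℕ} (hm : 2 < m) : Even (g m) ↔ Even m := by
  have := Nat.totient_even hm
  unfold g
  constructor
  · intro h
    exact (Nat.even_add.mp h).mpr this
  · intro h
    exact h.add this

lemma orbit_parity {n : ℕ} (hn : 0 < n) {k : ℕ} (hk : 2 ≤ k) (i : ℕ) :
    Even (g^[k + i] n) ↔ Even (g^[k] n) := by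
  induction i with
  | zero => simp
  | succ i ih =>
    rw [← add_assoc, orbit_succ, g_parity, ih]
    have := orbit_ge hn (k + i)
    omega

/-! ### The 2-adic valuation -/

lemma val_eq {a u : ℕ} (hu : Odd u) : padicValNat 2 (2 ^ a * u) = a := by
  have hu0 : u ≠ 0 := by rintro rfl; simp at hu
  rw [padicValNat.mul (by positivity) hu0, padicValNat.prime_pow,
    padicValNat.eq_zero_of_not_dvd (by rw [← even_iff_two_dvd]; simpa using hu)]
  simp

lemma prime_power_of_totient {u : ℕ} (hu : Odd u) (h1 : 1 < u) (hc : u.totient % 4 = 2) :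
    ∃ q j : ℕ, q.Prime ∧ 1 ≤ j ∧ u = q ^ j ∧ q % 4 = 3 := by
  set q := u.minFac with hq
  have hqp : q.Prime := Nat.minFac_prime (by omega)
  obtain ⟨j, w, hw, huw⟩ := Nat.exists_eq_pow_mul_and_not_dvd (n := u) (by omega) q hqp.ne_one
  have hqu : q ∣ u := Nat.minFac_dvd u
  have hj : 1 ≤ j := by
    by_contra hj
    have : j = 0 := by omega
    subst this
    simp at huw
    rw [huw] at hqu
    exact hw hqu
  have hqodd : Odd q := hu.of_dvd_nat hqu
  have hwodd : Odd w := hu.of_dvd_nat ⟨q ^ j, by rw [huw]; ring⟩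
  have hq3 : 2 < q := by
    have := hqp.two_le
    rcases hqodd with ⟨t, ht⟩
    omega
  have hcop : Nat.Coprime (q ^ j) w := Nat.Coprime.pow_left _ ((Nat.Prime.coprime_iff_not_dvd hqp).mpr hw)
  have htot : u.totient = (q ^ j).totient * w.totient := by
    conv_lhs => rw [huw]
    exact Nat.totient_mul hcop
  have hqj : 2 < q ^ j := lt_of_lt_of_le hq3 (Nat.le_self_pow (by omega) q)
  have e1 := Nat.totient_even hqj
  have hw1 : w = 1 := by
    by_contra hne
    have hw2 : 2 < w := by
      rcases hwodd with ⟨t, ht⟩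
      omega
    have e2 := Nat.totient_even hw2
    obtain ⟨a, ha⟩ := e1
    obtain ⟨b, hb⟩ := e2
    have : u.totient = 4 * (a * b) := by rw [htot, ha, hb]; ring
    omega
  refine ⟨q, j, hqp, hj, by rw [huw, hw1, mul_one], ?_⟩
  rw [hw1, Nat.totient_one, mul_one, Nat.totient_prime_pow hqp (by omega)] at htot
  by_contra hne
  have hq1 : q % 4 = 1 := by
    rcases hqodd with ⟨t, ht⟩
    omega
  obtain ⟨s, hs⟩ : ∃ s, q - 1 = 4 * s := ⟨(q - 1) / 4, by omega⟩
  have : u.totient = 4 * (q ^ (j - 1) * s) := by rw [htot, hs]; ring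
  omega

/-- One step of the orbit at an even number that is not a power of two. -/
lemma step {a u : ℕ} (ha : 1 ≤ a) (hu : Odd u) (h1 : 1 < u) :
    (∃ u' : ℕ, Odd u' ∧ g (2 ^ a * u) = 2 ^ a * u') ∨
    (∃ q j : ℕ, q.Prime ∧ 1 ≤ j ∧ u = q ^ j ∧ q % 4 = 3 ∧
      2 * g (2 ^ a * u) = 2 ^ a * (q ^ (j - 1) * (3 * q - 1))) := by
  have hcop : Nat.Coprime (2 ^ a) u := Nat.Coprime.pow_left _ (by simpa using hu.coprime_two_left)
  have htot : (2 ^ a * u).totient = 2 ^ (a - 1) * u.totient := by
    rw [Nat.totient_mul hcop, Nat.totient_prime_pow Nat.prime_two (by omega)]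
    simp
  have hu2 : 2 < u := by
    rcases hu with ⟨t, ht⟩
    omega
  obtain ⟨c, hc⟩ := Nat.totient_even hu2
  have hpow : 2 ^ a = 2 ^ (a - 1) * 2 := by
    rw [← pow_succ]; congr 1; omega
  have hg : g (2 ^ a * u) = 2 ^ a * (u + c) := by
    unfold g
    rw [htot, hc, hpow]
    ring
  rcases Nat.even_or_odd c with hce | hco
  · left
    exact ⟨u + c, hu.add_even hce, hg⟩
  · right
    have h4 : u.totient % 4 = 2 := by
      rcases hco with ⟨t, ht⟩
      omega
    obtain ⟨q, j, hq, hj, huq, hq3⟩ := prime_power_of_totient hu h1 h4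
    refine ⟨q, j, hq, hj, huq, hq3, ?_⟩
    have ht2 : u.totient = q ^ (j - 1) * (q - 1) := by
      rw [huq, Nat.totient_prime_pow hq (by omega)]
    have hqj : q ^ j = q ^ (j - 1) * q := by
      rw [← pow_succ]; congr 1; omega
    have : 2 * (u + c) = q ^ (j - 1) * (3 * q - 1) := by
      have e : 2 * (u + c) = 2 * u + u.totient := by omega
      rw [e, ht2, huq, hqj]
      have h1q : 1 ≤ q := hq.one_lt.le
      obtain ⟨s, hs⟩ : ∃ s, q = s + 1 := ⟨q - 1, by omega⟩
      rw [hs]
      have e1 : s + 1 - 1 = s := by omega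
      have e2 : 3 * (s + 1) - 1 = 3 * s + 2 := by omega
      rw [e1, e2]
      ring
    rw [hg, ← this]
    ring

/-- Two steps at a power of two. -/
lemma two_steps {a : ℕ} (ha : 2 ≤ a) : g (g (2 ^ a)) = 2 * 2 ^ a := by
  obtain ⟨b, rfl⟩ : ∃ b, a = b + 2 := ⟨a - 2, by omega⟩
  have h1 : g (2 ^ (b + 2)) = 2 ^ (b + 1) * 3 := by
    unfold g
    rw [Nat.totient_prime_pow Nat.prime_two (by omega)]
    have : b + 2 - 1 = b + 1 := by omega
    rw [this]
    ring
  rw [h1]
  unfold g
  have hcop : Nat.Coprime (2 ^ (b + 1)) 3 := Nat.Coprime.pow_left _ (by norm_num)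
  rw [Nat.totient_mul hcop, Nat.totient_prime_pow Nat.prime_two (by omega)]
  have h3 : Nat.totient 3 = 2 := by decide
  rw [h3]
  have : b + 1 - 1 = b := by omega
  rw [this]
  ring

/-! ### A lower bound for the totient -/

lemma prod_bound (S : Finset ℕ) (hS : ∀ p ∈ S, 3 ≤ p ∧ Odd p) :
    (1 : ℝ) / (2 * S.card + 1) ≤ ∏ p ∈ S, (1 - (p : ℝ)⁻¹) ^ 2 := by
  induction S using Finset.induction_on_max with
  | empty => simp
  | insert a S hmax ih =>
    have hnot : a ∉ S := fun h => lt_irrefl _ (hmax a h)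
    have ih' := ih (fun p hp => hS p (Finset.mem_insert_of_mem hp))
    have ha := hS a (Finset.mem_insert_self a S)
    have hcard : (insert a S).card ≤ a / 2 := by
      have : (insert a S).card ≤ (Finset.Icc 1 (a / 2)).card := by
        apply Finset.card_le_card_of_injOn (fun x => x / 2)
        · intro x hx
          have hx3 := hS x hx
          have hxa : x ≤ a := by
            rcases Finset.mem_insert.mp hx with h | h
            · exact h.le
            · exact (hmax x h).le
          simp only [Finset.coe_Icc, Set.mem_Icc]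
          omega
        · intro x hx y hy hxy
          have hx3 := (hS x hx).2
          have hy3 := (hS y hy).2
          rcases hx3 with ⟨s, hs⟩
          rcases hy3 with ⟨t, ht⟩
          simp only at hxy
          omega
      simpa using this
    rw [Finset.card_insert_of_notMem hnot] at hcard ⊢
    rw [Finset.prod_insert hnot]
    have hage : 2 * S.card + 3 ≤ a := by
      rcases ha.2 with ⟨t, ht⟩
      omega
    have hager : (2 * S.card + 3 : ℝ) ≤ (a : ℝ) := by exact_mod_cast hage
    have hpos : (0 : ℝ) < 2 * S.card + 3 := by positivity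
    have hapos : (0 : ℝ) < a := lt_of_lt_of_le hpos hager
    have hinv : (a : ℝ)⁻¹ ≤ (2 * S.card + 3 : ℝ)⁻¹ := inv_anti₀ hpos hager
    have h1 : ((2 * S.card + 1 : ℝ)) / (2 * S.card + 3) ≤ (1 - (a : ℝ)⁻¹) ^ 2 := by
      have e : ((2 * S.card + 1 : ℝ)) / (2 * S.card + 3) = 1 - 2 * (2 * S.card + 3 : ℝ)⁻¹ := by
        field_simp
        ring
      rw [e]
      nlinarith [sq_nonneg ((a : ℝ)⁻¹)]
    have hp1 : (0 : ℝ) < 2 * S.card + 1 := by positivity
    push_cast
    calc (1 : ℝ) / (2 * ((S.card : ℝ) + 1) + 1)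
        = ((2 * S.card + 1 : ℝ)) / (2 * S.card + 3) * (1 / (2 * S.card + 1)) := by
          field_simp
          ring
      _ ≤ (1 - (a : ℝ)⁻¹) ^ 2 * ∏ p ∈ S, (1 - (p : ℝ)⁻¹) ^ 2 := by
          apply mul_le_mul h1 ih' (by positivity) (by positivity)

/-- For even `m` with `W` distinct prime factors, `4 (2 W - 1) φ(m)² ≥ m²`. -/
lemma totient_bound {m : ℕ} (hm : 0 < m) (he : Even m) :
    (m : ℝ) ^ 2 ≤ 4 * (2 * (m.primeFactors.card : ℝ) - 1) * (m.totient : ℝ) ^ 2 := by
  have hmem : 2 ∈ m.primeFactors := by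
    rw [Nat.mem_primeFactors]
    exact ⟨Nat.prime_two, even_iff_two_dvd.mp he, by omega⟩
  set S := m.primeFactors.erase 2 with hS
  have hcard : S.card + 1 = m.primeFactors.card := Finset.card_erase_add_one hmem
  have hSodd : ∀ p ∈ S, 3 ≤ p ∧ Odd p := by
    intro p hp
    rw [hS, Finset.mem_erase, Nat.mem_primeFactors] at hp
    have hp2 := hp.2.1.two_le
    refine ⟨by omega, hp.2.1.odd_of_ne_two hp.1⟩
  have hb := prod_bound S hSodd
  have htot : (m.totient : ℝ) = m * ∏ p ∈ m.primeFactors, (1 - (p : ℝ)⁻¹) := by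
    have := Nat.totient_eq_mul_prod_factors m
    have h2 := congrArg (fun x : ℚ => (x : ℝ)) this
    push_cast at h2
    exact h2
  have hprod : ∏ p ∈ m.primeFactors, (1 - (p : ℝ)⁻¹) = (1 / 2) * ∏ p ∈ S, (1 - (p : ℝ)⁻¹) := by
    rw [hS, ← Finset.mul_prod_erase _ _ hmem]
    norm_num
  rw [htot, hprod, ← hcard]
  push_cast
  rw [Finset.prod_pow] at hb
  set P := ∏ p ∈ S, (1 - (p : ℝ)⁻¹) with hP
  have hc : (0 : ℝ) < 2 * S.card + 1 := by positivity
  rw [div_le_iff₀ hc] at hb
  have hm2 : (0 : ℝ) ≤ (m : ℝ) ^ 2 := by positivity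
  nlinarith [mul_le_mul_of_nonneg_left hb hm2]

/-! ### The result -/

lemma g_two_mul {m : ℕ} (he : Even m) : g (2 * m) = 2 * g m := by
  unfold g
  rw [Nat.totient_mul_of_prime_of_dvd Nat.prime_two (even_iff_two_dvd.mp he)]
  ring

lemma solution_of_return {n : ℕ} {k r : ℕ} (h2 : 2 < g^[k] n)
    (he : Even (g^[k] n)) (h : g^[k + r] n = 2 * g^[k] n) : Solution n r := by
  have hall : ∀ i, 2 < g^[k + i] n ∧ Even (g^[k + i] n) ∧
      g^[k + i + r] n = 2 * g^[k + i] n := by
    intro i
    induction i with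
    | zero => exact ⟨h2, he, h⟩
    | succ i ih =>
      obtain ⟨a, b, c⟩ := ih
      refine ⟨?_, ?_, ?_⟩
      · rw [← add_assoc, orbit_succ]
        have := g_gt (n := g^[k + i] n) (by omega)
        omega
      · rw [← add_assoc, orbit_succ]
        exact (g_parity a).mpr b
      · rw [show k + (i + 1) + r = (k + i + r) + 1 by ring, orbit_succ, c, g_two_mul b,
          ← add_assoc, orbit_succ]
  refine ⟨k, fun k' hk' => ?_⟩
  have := (hall (k' - k)).2.2
  rwa [show k + (k' - k) = k' by omega] at this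

lemma main (n r K : ℕ) (hn : 0 < n) (hr : 0 < r)
    (h : ∀ k, K ≤ k → g^[k + r] n = 2 * g^[k] n) :
    2 ≤ r ∧ (3 ≤ r → ∀ K' : ℕ, ∃ k, K' ≤ k ∧ ∃ l j q : ℕ, 1 ≤ l ∧ 1 ≤ j ∧ q.Prime ∧ q % 8 = 7 ∧
      g^[k] n = 2 ^ l * q ^ j ∧
      (∀ i, 1 ≤ i → i ≤ r → ∃ u : ℕ, Odd u ∧ g^[k + i] n = 2 ^ (l + 1) * u) ∧
      ∃ i, 1 ≤ i ∧ i < r ∧ 25 * (r - 1) ^ 2 + 16 ≤ 32 * (g^[k + i] n).primeFactors.card) := by
  have hpos : ∀ k, 0 < g^[k] n := fun k => by have := orbit_ge hn k; omega
  have hbig : ∀ k, 2 ≤ k → 2 < g^[k] n := fun k hk => by have := orbit_ge hn k; omega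
  have heven : ∀ k, max K 2 ≤ k → Even (g^[k] n) := by
    intro k hk
    have h1 := h k (le_trans (le_max_left _ _) hk)
    rw [← orbit_parity hn (le_trans (le_max_right _ _) hk) r, h1]
    exact even_two_mul _
  constructor
  · by_contra hlt
    have hr1 : r = 1 := by omega
    subst hr1
    have h1 := h (max K 2) (le_max_left _ _)
    rw [orbit_succ] at h1
    have h2 := hbig (max K 2) (le_max_right _ _)
    have h3 := Nat.totient_lt (g^[max K 2] n) (by omega)
    have h4 : g (g^[max K 2] n) = g^[max K 2] n + (g^[max K 2] n).totient := rfl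
    omega
  · intro hr3 K'
    have hdec : ∀ k, max K 2 ≤ k → ∃ a u, 1 ≤ a ∧ Odd u ∧ 1 < u ∧ g^[k] n = 2 ^ a * u := by
      intro k hk
      obtain ⟨a, u, hu, hau⟩ := Nat.exists_eq_two_pow_mul_odd (n := g^[k] n) (hpos k).ne'
      have he := heven k hk
      have ha : 1 ≤ a := by
        by_contra ha
        have ha0 : a = 0 := by omega
        rw [hau, ha0, pow_zero, one_mul] at he
        exact (Nat.not_even_iff_odd.mpr hu) he
      refine ⟨a, u, ha, hu, ?_, hau⟩
      by_contra hu1
      have hu1' : u = 1 := by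
        rcases hu with ⟨t, ht⟩
        omega
      rw [hu1', mul_one] at hau
      have ha2 : 2 ≤ a := by
        by_contra hlt
        have ha1 : a = 1 := by omega
        rw [ha1] at hau
        have := hbig k (le_trans (le_max_right _ _) hk)
        omega
      have h2 := two_steps ha2
      rw [← hau] at h2
      have h3 : g^[k + 2] n = 2 * g^[k] n := by
        rw [show k + 2 = (k + 1) + 1 from rfl, orbit_succ, orbit_succ]
        exact h2
      have h4 := h k (le_trans (le_max_left _ _) hk)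
      have h5 : k + 2 = k + r := (orbit_strict hn).injective (h3.trans h4.symm)
      omega
    set v : ℕ → ℕ := fun k => padicValNat 2 (g^[k] n) with hv
    have hstep : ∀ k, max K 2 ≤ k → v k ≤ v (k + 1) := by
      intro k hk
      obtain ⟨a, u, ha, hu, h1, hau⟩ := hdec k hk
      have hvk : v k = a := by
        simp only [hv]
        rw [hau, val_eq hu]
      rcases step ha hu h1 with ⟨u', hu', hg⟩ | ⟨q, j, hq, hj, huq, hq3, hg⟩
      · have : v (k + 1) = a := by
          simp only [hv]
          rw [orbit_succ, hau, hg, val_eq hu']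
        omega
      · obtain ⟨s, hs⟩ : ∃ s, 3 * q - 1 = 4 * s := ⟨(3 * q - 1) / 4, by omega⟩
        have hg1 : g^[k + 1] n = 2 ^ (a + 1) * (q ^ (j - 1) * s) := by
          rw [orbit_succ, hau]
          have : 2 * g (2 ^ a * u) = 2 * (2 ^ (a + 1) * (q ^ (j - 1) * s)) := by
            rw [hg, hs]
            ring
          omega
        have hdvd : 2 ^ (a + 1) ∣ g^[k + 1] n := ⟨q ^ (j - 1) * s, hg1⟩
        have h2 := (padicValNat_dvd_iff_le (hpos (k + 1)).ne').mp hdvd
        simp only [hv] at hvk ⊢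
        omega
    have hmono : ∀ k i, max K 2 ≤ k → v k ≤ v (k + i) := by
      intro k i hk
      induction i with
      | zero => exact le_rfl
      | succ i ih => exact ih.trans (hstep (k + i) (by omega))
    have hper : ∀ k, max K 2 ≤ k → v (k + r) = v k + 1 := by
      intro k hk
      obtain ⟨a, u, ha, hu, h1, hau⟩ := hdec k hk
      have h2 : g^[k + r] n = 2 ^ (a + 1) * u := by
        rw [h k (le_trans (le_max_left _ _) hk), hau]
        ring
      simp only [hv]
      rw [h2, val_eq hu, hau, val_eq hu]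
    obtain ⟨k, hk, hjump⟩ : ∃ k, max (max K 2) K' ≤ k ∧ v k < v (k + 1) := by
      by_contra hno
      push Not at hno
      have hconst : ∀ i, v (max (max K 2) K' + i) ≤ v (max (max K 2) K') := by
        intro i
        induction i with
        | zero => exact le_rfl
        | succ i ih => exact (hno (max (max K 2) K' + i) (by omega)).trans ih
      have h1 := hper (max (max K 2) K') (le_max_left _ _)
      have h2 := hconst r
      omega
    have hk2 : max K 2 ≤ k := le_trans (le_max_left _ _) hk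
    obtain ⟨l, u, hl, hu, hu1, hlu⟩ := hdec k hk2
    have hvk : v k = l := by
      simp only [hv]
      rw [hlu, val_eq hu]
    have hvi : ∀ i, 1 ≤ i → i ≤ r → v (k + i) = l + 1 := by
      intro i hi1 hir
      have e1 : v (k + 1) ≤ v (k + i) := by
        have := hmono (k + 1) (i - 1) (by omega)
        rwa [show k + 1 + (i - 1) = k + i by omega] at this
      have e2 : v (k + i) ≤ v (k + r) := by
        have := hmono (k + i) (r - i) (by omega)
        rwa [show k + i + (r - i) = k + r by omega] at this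
      have e3 := hper k hk2
      omega
    rcases step hl hu hu1 with ⟨u', hu', hg⟩ | ⟨q, j, hq, hj, huq, hq3, hg⟩
    · exfalso
      have : v (k + 1) = l := by
        simp only [hv]
        rw [orbit_succ, hlu, hg, val_eq hu']
      omega
    · have hq8 : q % 8 = 7 := by
        have h1 := hvi 1 le_rfl (by omega)
        obtain ⟨s, hs⟩ : ∃ s, 3 * q - 1 = 4 * s := ⟨(3 * q - 1) / 4, by omega⟩
        have hg1 : g^[k + 1] n = 2 ^ (l + 1) * (q ^ (j - 1) * s) := by
          rw [orbit_succ, hlu]
          have : 2 * g (2 ^ l * u) = 2 * (2 ^ (l + 1) * (q ^ (j - 1) * s)) := by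
            rw [hg, hs]
            ring
          omega
        by_contra hne
        obtain ⟨t, ht⟩ : ∃ t, s = 2 * t := ⟨s / 2, by omega⟩
        have hdvd : 2 ^ (l + 2) ∣ g^[k + 1] n := ⟨q ^ (j - 1) * t, by rw [hg1, ht]; ring⟩
        have h2 := (padicValNat_dvd_iff_le (hpos (k + 1)).ne').mp hdvd
        simp only [hv] at h1
        omega
      refine ⟨k, le_trans (le_max_right _ _) hk, l, j, q, hl, hj, hq, hq8, by rw [hlu, huq],
        ?_, ?_⟩
      · intro i hi1 hir
        obtain ⟨a, w, ha, hw, hw1, haw⟩ := hdec (k + i) (by omega)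
        have h1 := hvi i hi1 hir
        simp only [hv] at h1
        rw [haw, val_eq hw] at h1
        exact ⟨w, hw, by rw [haw, h1]⟩
      · by_contra hno
        push Not at hno
        have hr1 : (2 : ℝ) ≤ (r : ℝ) - 1 := by
          have : (3 : ℝ) ≤ r := by exact_mod_cast hr3
          linarith
        have hr0 : (0 : ℝ) < (r : ℝ) - 1 := by linarith
        set x : ℝ := 2 / (5 * ((r : ℝ) - 1)) with hx
        have hx0 : 0 < x := by rw [hx]; positivity
        have hfac : ∀ i, 1 ≤ i → i < r →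
            (g^[k + i] n : ℝ) * (1 + x) < (g^[k + (i + 1)] n : ℝ) := by
          intro i hi1 hir
          have hW := hno i hi1 hir
          have hnext : (g^[k + (i + 1)] n : ℝ) = (g^[k + i] n : ℝ) + ((g^[k + i] n).totient : ℝ) := by
            rw [← add_assoc, orbit_succ]
            have : g (g^[k + i] n) = g^[k + i] n + (g^[k + i] n).totient := rfl
            rw [this]
            push_cast
            ring
          rw [hnext]
          generalize hm : g^[k + i] n = m at *
          have hmpos : 0 < m := by rw [← hm]; exact hpos (k + i)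
          have he : Even m := by rw [← hm]; exact heven (k + i) (by omega)
          have hb := totient_bound hmpos he
          have hWr : 32 * (m.primeFactors.card : ℝ) < 25 * ((r : ℝ) - 1) ^ 2 + 16 := by
            have h1 : ((32 * m.primeFactors.card : ℕ) : ℝ) < ((25 * (r - 1) ^ 2 + 16 : ℕ) : ℝ) := by
              exact_mod_cast hW
            push_cast [Nat.cast_sub (by omega : 1 ≤ r)] at h1
            exact h1
          have hφ : (0 : ℝ) < (m.totient : ℝ) := by exact_mod_cast Nat.totient_pos.mpr hmpos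
          have hφ2 : (0 : ℝ) < (m.totient : ℝ) ^ 2 := by positivity
          have h16 : 16 * (2 * (m.primeFactors.card : ℝ) - 1) < 25 * ((r : ℝ) - 1) ^ 2 := by
            linarith
          have hsq : (2 * (m : ℝ)) ^ 2 < (5 * ((r : ℝ) - 1) * (m.totient : ℝ)) ^ 2 := by
            have h3 := mul_lt_mul_of_pos_right h16 hφ2
            calc (2 * (m : ℝ)) ^ 2 = 4 * (m : ℝ) ^ 2 := by ring
              _ ≤ 4 * (4 * (2 * (m.primeFactors.card : ℝ) - 1) * (m.totient : ℝ) ^ 2) := by
                  linarith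
              _ = 16 * (2 * (m.primeFactors.card : ℝ) - 1) * (m.totient : ℝ) ^ 2 := by ring
              _ < 25 * ((r : ℝ) - 1) ^ 2 * (m.totient : ℝ) ^ 2 := h3
              _ = (5 * ((r : ℝ) - 1) * (m.totient : ℝ)) ^ 2 := by ring
          have hlt : 2 * (m : ℝ) < 5 * ((r : ℝ) - 1) * (m.totient : ℝ) :=
            lt_of_pow_lt_pow_left₀ 2 (by positivity) hsq
          have h5 : (m : ℝ) * x < (m.totient : ℝ) := by
            rw [hx, mul_div_assoc', div_lt_iff₀ (by linarith)]
            linarith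
          linarith
        have hiter : ∀ i, 1 ≤ i → i < r →
            (g^[k + 1] n : ℝ) * (1 + x) ^ (i - 1) ≤ (g^[k + i] n : ℝ) := by
          intro i hi1
          induction i, hi1 using Nat.le_induction with
          | base => intro _; simp
          | succ i hi1 ih =>
            intro hir
            have h1 := ih (by omega)
            have h2 := hfac i hi1 (by omega)
            have e : i + 1 - 1 = (i - 1) + 1 := by omega
            rw [e, pow_succ, ← mul_assoc]
            exact (mul_le_mul_of_nonneg_right h1 (by linarith)).trans h2.le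
        have hlast := hfac (r - 1) (by omega) (by omega)
        have hprev := hiter (r - 1) (by omega) (by omega)
        have hber : 1 + ((r - 1 : ℕ) : ℝ) * x ≤ (1 + x) ^ (r - 1) :=
          one_add_mul_le_pow (by linarith) (r - 1)
        have hrx : ((r - 1 : ℕ) : ℝ) * x = 2 / 5 := by
          rw [Nat.cast_sub (by omega), Nat.cast_one, hx]
          field_simp
        have hfin : (g^[k + 1] n : ℝ) * (7 / 5) < (g^[k + r] n : ℝ) := by
          have e : r - 1 + 1 = r := by omega
          rw [e] at hlast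
          have e2 : (1 + x) ^ (r - 1) = (1 + x) ^ (r - 1 - 1) * (1 + x) := by
            rw [← pow_succ]
            congr 1
            omega
          have hm1 : (0 : ℝ) ≤ (g^[k + 1] n : ℝ) := by positivity
          calc (g^[k + 1] n : ℝ) * (7 / 5) ≤ (g^[k + 1] n : ℝ) * (1 + x) ^ (r - 1) := by
                apply mul_le_mul_of_nonneg_left _ hm1
                linarith
            _ = (g^[k + 1] n : ℝ) * (1 + x) ^ (r - 1 - 1) * (1 + x) := by rw [e2]; ring
            _ ≤ (g^[k + (r - 1)] n : ℝ) * (1 + x) :=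
                mul_le_mul_of_nonneg_right hprev (by linarith)
            _ < _ := hlast
        have hfinN : 7 * g^[k + 1] n < 5 * g^[k + r] n := by
          have : (7 : ℝ) * (g^[k + 1] n : ℝ) < 5 * (g^[k + r] n : ℝ) := by linarith
          exact_mod_cast this
        have hk1 : 2 * g^[k + 1] n = 2 ^ l * (q ^ (j - 1) * (3 * q - 1)) := by
          rw [orbit_succ, hlu]
          exact hg
        have hkr : g^[k + r] n = 2 * (2 ^ l * (q ^ (j - 1) * q)) := by
          rw [h k (le_trans (le_max_left _ _) hk2), hlu, huq, ← pow_succ,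
            show j - 1 + 1 = j by omega]
        have h7 : 7 * (2 * g^[k + 1] n) < 10 * g^[k + r] n := by omega
        rw [hk1, hkr] at h7
        have h8 : 2 ^ l * q ^ (j - 1) * (7 * (3 * q - 1)) < 2 ^ l * q ^ (j - 1) * (20 * q) := by
          calc 2 ^ l * q ^ (j - 1) * (7 * (3 * q - 1))
              = 7 * (2 ^ l * (q ^ (j - 1) * (3 * q - 1))) := by ring
            _ < 10 * (2 * (2 ^ l * (q ^ (j - 1) * q))) := h7
            _ = 2 ^ l * q ^ (j - 1) * (20 * q) := by ring
        have h9 := lt_of_mul_lt_mul_left h8 (Nat.zero_le _)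
        omega

/-- There is no solution with `r = 1`. For `r ≥ 3`, `(n, r)` is a solution if and only if some
iterate is `2 ^ l * q ^ j` with `q ≡ 7 mod 8` prime and is doubled after `r` steps; then this
happens infinitely often, the `r` iterates after it have 2-adic valuation `l + 1`, and one of the
first `r - 1` of them has at least `(25 (r - 1) ^ 2 + 16) / 32` distinct prime factors. -/
theorem result (n r : ℕ) (hn : 0 < n) (hr : 0 < r) :
    (Solution n r → 2 ≤ r) ∧
    (3 ≤ r →
      (Solution n r ↔ ∃ k l j q : ℕ, 1 ≤ l ∧ 1 ≤ j ∧ q.Prime ∧ q % 8 = 7 ∧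
        g^[k] n = 2 ^ l * q ^ j ∧ g^[k + r] n = 2 * g^[k] n) ∧
      (Solution n r → ∀ K : ℕ, ∃ k, K ≤ k ∧ ∃ l j q : ℕ, 1 ≤ l ∧ 1 ≤ j ∧ q.Prime ∧ q % 8 = 7 ∧
        g^[k] n = 2 ^ l * q ^ j ∧
        (∀ i, 1 ≤ i → i ≤ r → ∃ u : ℕ, Odd u ∧ g^[k + i] n = 2 ^ (l + 1) * u) ∧
        ∃ i, 1 ≤ i ∧ i < r ∧
          25 * (r - 1) ^ 2 + 16 ≤ 32 * (g^[k + i] n).primeFactors.card)) := by
  refine ⟨fun ⟨K, h⟩ => (main n r K hn hr h).1, fun hr3 => ⟨⟨?_, ?_⟩, ?_⟩⟩
  · rintro ⟨K, h⟩
    obtain ⟨k, hk, l, j, q, hl, hj, hq, hq8, hkq, -, -⟩ := (main n r K hn hr h).2 hr3 K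
    exact ⟨k, l, j, q, hl, hj, hq, hq8, hkq, h k hk⟩
  · rintro ⟨k, l, j, q, hl, hj, hq, hq8, hkq, hret⟩
    have hl2 : 2 ≤ 2 ^ l := by
      calc 2 = 2 ^ 1 := by norm_num
        _ ≤ 2 ^ l := Nat.pow_le_pow_right (by norm_num) hl
    have hq2 : 2 ≤ q ^ j := le_trans hq.two_le (Nat.le_self_pow (by omega) q)
    apply solution_of_return _ _ hret
    · rw [hkq]
      nlinarith
    · rw [hkq]
      exact (Nat.even_pow.mpr ⟨even_two, by omega⟩).mul_right _
  · rintro ⟨K, h⟩ K'
    exact (main n r K hn hr h).2 hr3 K'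

end Pool.Agent.Results.MP_78a9e2_nt.PrimePowerCycles
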